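import Pool.Agent.N929.EG.KnStm

/-!
# Project EG, part KNC: moves of the polygon and of the walk, polygons as walks (helper712)
-/

set_option autoImplicit false

namespace Pool.Agent.N712.EG

open Finset Filter Topology KN TH966.KO Pool.Agent.N929.EG
open scoped Classical

theorem site_succ {d : Dir} {u : List Dir} {i : ℕ} {e : Dir} (h : site (d :: u) (i + 1) e) :
    site u i e := by
  obtain ⟨h1, h2, h3, h4⟩ := h
  have hs : ∀ p : Z3, p ∉ path (d :: u) → p ∉ path u := fun p hp hq =>
    hp (List.mem_cons_of_mem _ hq)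
  refine ⟨?_, h2, hs _ h3, hs _ h4⟩
  rw [List.length_cons] at h1
  omega

theorem bump_succ {d : Dir} {u : List Dir} {j : ℕ} (h : bump (d :: u) (j + 1)) : bump u j := by
  obtain ⟨h1, h2, h3⟩ := h
  refine ⟨?_, h2, h3⟩
  rw [List.length_cons] at h1
  omega

theorem fr_cons (d : Dir) (u : List Dir) : fr (d :: u) ≤ fr u + 6 := by
  have hsub : sites (d :: u) ⊆ (sites u).image (fun q : ℕ × Dir => (q.1 + 1, q.2)) ∪
      ({0} : Finset ℕ) ×ˢ (univ : Finset Dir) := by
    rintro ⟨i, e⟩ hq
    rw [mem_sites] at hq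
    rcases i with _ | i
    · refine mem_union_right _ ?_
      rw [mem_product]
      exact ⟨mem_singleton_self _, mem_univ _⟩
    · refine mem_union_left _ (mem_image.2 ⟨(i, e), ?_, rfl⟩)
      rw [mem_sites]
      exact site_succ hq
  refine (card_le_card hsub).trans ((card_union_le _ _).trans ?_)
  refine Nat.add_le_add card_image_le ?_
  rw [card_product, card_singleton]
  decide

theorem bu_cons (d : Dir) (u : List Dir) : bu (d :: u) ≤ bu u + 1 := by
  have hsub : bumps (d :: u) ⊆ (bumps u).image (fun j : ℕ => j + 1) ∪ {0} := by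
    intro j hj
    rw [mem_bumps] at hj
    rcases j with _ | j
    · exact mem_union_right _ (mem_singleton_self _)
    · refine mem_union_left _ (mem_image.2 ⟨j, ?_, rfl⟩)
      rw [mem_bumps]
      exact bump_succ hj
  refine (card_le_card hsub).trans ((card_union_le _ _).trans ?_)
  exact Nat.add_le_add card_image_le (card_singleton _).le

theorem knc : S_KNC := fun _ d u _ _ _ => ⟨fr_cons d u, bu_cons d u⟩

theorem knk : S_KNK := by
  intro Q n w hn
  rw [KN.mem_K]
  constructor
  · rintro ⟨h1, ⟨h2, h3, h4⟩, h5⟩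
    rcases w with _ | ⟨d, u⟩
    · simp at h1
    · refine ⟨d, u, rfl, mem_SS.2 ⟨?_, h4⟩, h3, h5⟩
      rw [List.length_cons] at h1
      omega
  · rintro ⟨d, u, rfl, h1, h2, h3⟩
    obtain ⟨h4, h5⟩ := mem_SS.1 h1
    refine ⟨?_, ⟨?_, h2, h5⟩, h3⟩
    · rw [List.length_cons, h4]
    · rw [List.length_cons, h4]
      omega

end Pool.Agent.N712.EG
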